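import Pool.Agent.ROQ.Gate

/-!
MODULE ROQ-Ind.  Read-once formulas of any depth are constant or move.

PLAN.
* `sub_of_not_mv`: `natDegree = 0`, so `sub p β f = Polynomial.C (coeff 0)`
  (`Polynomial.eq_C_of_natDegree_eq_zero`), and `coeff_zero`.
* `alg_ne`.  `φ = sub p β` is injective on `adjoin (range b)`: its elements are `aeval b P`
  (`Algebra.adjoin_range_eq_range_aeval`), `φ (aeval b P) = aeval (φ ∘ b) P`, which is `0` only if
  `P = 0`.  `h ≠ 0` algebraic over it: there is a polynomial over `adjoin (range b)` vanishing at `h`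
  with nonzero constant coefficient (`IsAlgebraic.exists_nonzero_coeff_and_aeval_eq_zero` or
  `exists_nonzero_coeff_and_aeval_eq_zero` with `h ∈ nonZeroDivisors`; or divide by the
  largest power of `X` dividing the polynomial, or take the smallest degree).  Apply `φ`
  (`Polynomial.aeval` is a sum, `map_sum`): if `φ h = 0` then `φ (constant coefficient) = 0`, a
  contradiction.
* `ro_ind`.  Induction on `hf`.  Leaf: `h𝓛`.  Gate: let `ι = {j : Fin k // Mv p β (b j)}`
  (classical), `b' = b` restricted to `ι`; `card ι ≤ k ≤ p + 1`.  The other `b j` are constants, so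
  `adjoin (range b) ≤ adjoin (range b')` (`Algebra.adjoin_le`, `algebraMap_mem`) and `f` is algebraic
  over `adjoin (range b')` (the two subalgebras are equal: rewrite).  By `gate_indep` and `alg_ne` for
  `f - C a`: if `f` is not a constant, then `sub p β (f - C a) ≠ 0` for all `a` (`f - C a` is algebraic:
  `IsAlgebraic.sub`, `isAlgebraic_algebraMap`, the constant is the image of an element of the
  subalgebra), so `f` moves by `sub_of_not_mv` with `a = eval β f` and `sub_C`.
* `ro_fin`: finitely many leaves; model `ROL/Ind.lean` and `TXL/FinL.lean` (union over `Fin k`).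
-/

set_option autoImplicit false

namespace Pool.Agent.ROQ

open MvPolynomial

variable {F : Type*} [Field F] {n : ℕ}

theorem sub_of_not_mv (p : ℕ) (β : Fin n → F) (f : MvPolynomial (Fin n) F) (h : ¬ Mv p β f) :
    sub p β f = Polynomial.C (C (eval β f)) := by
  have h0 : (sub p β f).natDegree = 0 := by
    unfold Mv at h
    omega
  rw [Polynomial.eq_C_of_natDegree_eq_zero h0, coeff_zero]

private theorem ROQ_Ind_inj (p : ℕ) (β : Fin n → F) {ι : Type*} (b : ι → MvPolynomial (Fin n) F)
    (hb : AlgebraicIndependent F fun j => sub p β (b j)) {x : MvPolynomial (Fin n) F}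
    (hx : x ∈ Algebra.adjoin F (Set.range b)) (h0 : sub p β x = 0) : x = 0 := by
  rw [Algebra.adjoin_range_eq_range_aeval] at hx
  obtain ⟨P, rfl⟩ := hx
  have h1 : (aeval fun j => sub p β (b j)) P = 0 := by
    rw [← h0]
    exact (MvPolynomial.comp_aeval_apply b (sub p β) P).symm
  have h2 : P = 0 := (algebraicIndependent_iff.1 hb) P h1
  rw [h2]
  simp

theorem alg_ne (p : ℕ) (β : Fin n → F) {ι : Type*} (b : ι → MvPolynomial (Fin n) F)
    (hb : AlgebraicIndependent F fun j => sub p β (b j)) {h : MvPolynomial (Fin n) F}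
    (hh : IsAlgebraic (Algebra.adjoin F (Set.range b)) h) (h0 : h ≠ 0) : sub p β h ≠ 0 := by
  intro hs
  obtain ⟨q, hq0, hq⟩ := hh.exists_nonzero_coeff_and_aeval_eq_zero
    (mem_nonZeroDivisors_of_ne_zero h0)
  apply hq0
  apply Subtype.ext
  apply ROQ_Ind_inj p β b hb (q.coeff 0).2
  have h1 : (sub p β) (Polynomial.aeval h q) = 0 := by rw [hq, map_zero]
  rw [Polynomial.aeval_eq_sum_range, map_sum, Finset.sum_range_succ'] at h1
  rw [Finset.sum_eq_zero] at h1
  · simpa [Algebra.smul_def] using h1
  · intro i _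
    rw [Algebra.smul_def, map_mul, map_pow, hs, zero_pow (Nat.succ_ne_zero i), mul_zero]

private theorem ROQ_Ind_cong {A B : Subalgebra F (MvPolynomial (Fin n) F)} (h : A ≤ B)
    {f : MvPolynomial (Fin n) F} (hf : IsAlgebraic A f) : IsAlgebraic B f := by
  obtain ⟨q, hq0, hq⟩ := hf
  refine ⟨q.map (Subalgebra.inclusion h).toRingHom, ?_, ?_⟩
  · rw [Polynomial.map_ne_zero_iff]
    · exact hq0
    · exact Subalgebra.inclusion_injective h
  · rw [← hq, Polynomial.aeval_def, Polynomial.aeval_def, Polynomial.eval₂_map]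
    rfl

theorem ro_ind [CharZero F] (p : ℕ) (β : Fin n → F) {𝓛 : MvPolynomial (Fin n) F → Prop}
    (h𝓛 : ∀ f, 𝓛 f → (∃ c, f = C c) ∨ Mv p β f) {f : MvPolynomial (Fin n) F} (hf : RO p 𝓛 f) :
    (∃ c, f = C c) ∨ Mv p β f := by
  classical
  induction hf with
  | leaf hf => exact h𝓛 _ hf
  | @gate k hk b _ hd f hf ih =>
    by_contra hcon
    rw [not_or] at hcon
    obtain ⟨hc, hm⟩ := hcon
    let b' : {j : Fin k // Mv p β (b j)} → MvPolynomial (Fin n) F := fun j => b j.1
    have hcard : Fintype.card {j : Fin k // Mv p β (b j)} ≤ p + 1 := by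
      refine le_trans (Fintype.card_subtype_le _) ?_
      rw [Fintype.card_fin]
      exact hk
    have hle : Algebra.adjoin F (Set.range b) ≤ Algebra.adjoin F (Set.range b') := by
      refine Algebra.adjoin_le ?_
      rintro _ ⟨j, rfl⟩
      rcases ih j with ⟨c, hc⟩ | hj
      · rw [hc]
        exact Subalgebra.algebraMap_mem (Algebra.adjoin F (Set.range b')) c
      · exact Algebra.subset_adjoin ⟨⟨j, hj⟩, rfl⟩
    have hind : AlgebraicIndependent F fun j => sub p β (b' j) := by
      refine gate_indep p β hcard b' (fun j => j.2) ?_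
      intro j l hjl
      exact hd j.1 l.1 fun h => hjl (Subtype.ext h)
    have hf' : IsAlgebraic (Algebra.adjoin F (Set.range b')) f := ROQ_Ind_cong hle hf
    have hC : IsAlgebraic (Algebra.adjoin F (Set.range b'))
        (C (eval β f) : MvPolynomial (Fin n) F) :=
      isAlgebraic_algebraMap (A := MvPolynomial (Fin n) F)
        (algebraMap F (Algebra.adjoin F (Set.range b')) (eval β f))
    have hne : sub p β (f - C (eval β f)) ≠ 0 := by
      refine alg_ne p β b' hind (hf'.sub hC) ?_
      intro h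
      exact hc ⟨eval β f, sub_eq_zero.1 h⟩
    apply hne
    rw [map_sub, sub_of_not_mv p β f hm, sub_C, sub_self]

theorem ro_mono {p : ℕ} {𝓛 𝓛' : MvPolynomial (Fin n) F → Prop} (h : ∀ f, 𝓛 f → 𝓛' f)
    {f : MvPolynomial (Fin n) F} (hf : RO p 𝓛 f) : RO p 𝓛' f := by
  induction hf with
  | leaf hf => exact .leaf (h _ hf)
  | gate hk b _ hd hf ih => exact .gate hk b ih hd hf

theorem ro_fin {p : ℕ} {𝓛 : MvPolynomial (Fin n) F → Prop} {f : MvPolynomial (Fin n) F}
    (hf : RO p 𝓛 f) :
    ∃ A : Set (MvPolynomial (Fin n) F), A.Finite ∧ (∀ g ∈ A, 𝓛 g) ∧ RO p (fun g => g ∈ A) f := by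
  induction hf with
  | @leaf f hf => exact ⟨{f}, Set.finite_singleton f, fun g hg => by
      rw [Set.mem_singleton_iff.1 hg]; exact hf, .leaf (Set.mem_singleton f)⟩
  | gate hk b _ hd hf ih =>
    choose A h1 h2 h3 using ih
    exact ⟨⋃ i, A i, Set.finite_iUnion h1, fun g hg => by
      obtain ⟨i, hi⟩ := Set.mem_iUnion.1 hg
      exact h2 i g hi, .gate hk b
        (fun i => ro_mono (fun g hg => Set.mem_iUnion.2 ⟨i, hg⟩) (h3 i)) hd hf⟩

end Pool.Agent.ROQ
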