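import Pool.Agent.ROQ.Def2
import Pool.Agent.TXL.Dg

/-!
MODULE ROQ-Dg.  Degrees of the coordinates and the grid of points (models `Pool/Agent/ROL/Dg.lean`,
`Pool/Agent/TXL/Dg.lean`).

PLAN.
* The coordinate `i` of `ext` has total degree at most `degR n w p = deg n w + p * n`: `rename` does
  not increase it (`totalDegree_rename_le`, `TXL.deg_coord`), and `X (inr 0) * pq _ i` has total
  degree at most `1 + p * (n - 1)` (product of `p * (n - 1)` linear polynomials,
  `Finset.card_erase_of_mem`, `totalDegree_finset_prod`), and `1 ≤ deg n w`.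
* `gridR`: `TWX.small_ne` for `aeval (ext _ _) g`, `B = degR n w p * D'`, degree by `FOR.aeval_le` with
  `dg_tot` (private in `TXL/Dg.lean`: copy), as in `TXL.grid`, `ROL.gridR`.  The value of the
  coordinate `i` at the natural parameters `s` is `genR ...` cast to `F`: `eval (rename inl q) =
  eval (s ∘ inl) q` (`eval_rename`), `ORB.eval_PhiP` for `g = X i`, `eval_val` (private in
  `TXL/Dg.lean`: copy), and `map_pq` for the homomorphisms `eval` and `Nat.castRingHom`.
* `card_ptsR`: as `TXL.card_pts`.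
-/

set_option autoImplicit false

namespace Pool.Agent.ROQ

open MvPolynomial
open Pool.Agent.FOR (Ps lev)
open Pool.Agent.ORB (PhiP)
open Pool.Agent.ORA (cvx)
open Pool.Agent.TWX (crv2)
open Pool.Agent.TXL

private theorem roqDg_tot (R : Type*) [CommSemiring R] (σ : Type*) :
    FOR.Dg (fun p : MvPolynomial σ R => p.totalDegree) where
  add := fun x y => totalDegree_add x y
  mul := fun x y => totalDegree_mul x y
  nat := fun n => by
    have h : ((n : ℕ) : MvPolynomial σ R) = C (n : R) := (map_natCast C n).symm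
    show totalDegree ((n : ℕ) : MvPolynomial σ R) = 0
    rw [h]
    exact totalDegree_C _

private theorem roqDg_pw (F : Type*) [Field F] {σ : Type*} (b : σ) {n : ℕ} (i : Fin n) :
    (ROL.pw (X b) i : MvPolynomial σ F).totalDegree ≤ n := by
  unfold ROL.pw
  refine (totalDegree_finsetProd _ _).trans ?_
  have h2 : ∑ j ∈ Finset.univ.erase i, (X b + ((j : ℕ) : MvPolynomial σ F)).totalDegree ≤
      ∑ j ∈ Finset.univ.erase i, 1 := by
    refine Finset.sum_le_sum fun j _ => ?_
    refine (totalDegree_add _ _).trans (max_le ?_ ?_)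
    · exact le_of_eq (totalDegree_X b)
    · have h3 := (roqDg_tot F σ).nat (j : ℕ)
      have h4 : (((j : ℕ) : MvPolynomial σ F)).totalDegree = 0 := h3
      omega
  refine h2.trans ?_
  rw [Finset.sum_const, smul_eq_mul, mul_one, Finset.card_erase_of_mem (Finset.mem_univ i),
    Finset.card_univ, Fintype.card_fin]
  omega

private theorem roqDg_pq (F : Type*) [Field F] {σ : Type*} (a : σ) {n p : ℕ} (b : Fin p → σ)
    (i : Fin n) :
    (X a * pq (fun s => X (b s)) i : MvPolynomial σ F).totalDegree ≤ 1 + p * n := by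
  have h1 : (pq (fun s => X (b s)) i : MvPolynomial σ F).totalDegree ≤ p * n := by
    unfold pq
    refine (totalDegree_finsetProd _ _).trans ?_
    refine (Finset.sum_le_sum fun s _ => roqDg_pw F (b s) i).trans (le_of_eq ?_)
    rw [Finset.sum_const, smul_eq_mul, Finset.card_univ, Fintype.card_fin]
  refine (totalDegree_mul _ _).trans ?_
  have h2 : (X a : MvPolynomial σ F).totalDegree = 1 := totalDegree_X a
  omega

private theorem roqDg_ext (F : Type*) [Field F] (n w c p : ℕ) (i : Fin n) :
    (ext p (fun i => PhiP (cvx F n (4 * n)) (crv2 F n (lev (max n w))) c (X i)) i).totalDegree ≤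
      degR n w p := by
  unfold ext degR
  refine (totalDegree_add _ _).trans (max_le ?_ ?_)
  · exact ((totalDegree_rename_le _ _).trans (deg_coord F n w c i)).trans (Nat.le_add_right _ _)
  · refine (roqDg_pq F _ _ i).trans ?_
    have h3 := i.2
    have : 1 ≤ deg n w := by
      unfold deg
      omega
    omega

private theorem roqDg_val (F : Type*) [Field F] (n L c : ℕ) (s : Fin 5 ⊕ (Fin c ⊕ Fin c) → ℕ)
    (i : Fin n) :
    ORB.val (cvx F n (4 * n)) (fun v => eval (fun a => ((s (Sum.inl a) : ℕ) : F)) (crv2 F n L v))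
      (fun l => ((s (Sum.inr (Sum.inl l)) : ℕ) : F)) (fun l => ((s (Sum.inr (Sum.inr l)) : ℕ) : F)) i
      = ((gen n L c (fun a => s (Sum.inl a)) (fun l => s (Sum.inr (Sum.inl l)))
        (fun l => s (Sum.inr (Sum.inr l))) i : ℕ) : F) := by
  have h1 : eval (fun a => ((s (Sum.inl a) : ℕ) : F)) (crv2 F n L i) =
      ((crvN L (fun a => s (Sum.inl a)) (i : ℕ) : ℕ) : F) := by
    unfold crv2 crvN
    have e1 := FOR.map_Ps (eval (fun a : Fin 5 => ((s (Sum.inl a) : ℕ) : F))) L
    have e2 := FOR.map_Ps (Nat.castRingHom F) L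
    simp only [eq_natCast] at e2
    rw [map_add, map_mul, e1, e1, Nat.cast_add, Nat.cast_mul, e2, e2]
    simp only [eval_X]
  unfold ORB.val gen cvx
  rw [Nat.cast_add, Nat.cast_sum, ← h1]
  refine congrArg₂ (· + ·) rfl (Finset.sum_congr rfl fun l _ => ?_)
  rw [Nat.cast_mul, ← ORB.cv_eval]

private theorem roqDg_eval (F : Type*) [Field F] (n L c p : ℕ)
    (s : (Fin 5 ⊕ (Fin c ⊕ Fin c)) ⊕ Fin (p + 1) → ℕ) (i : Fin n) :
    eval (fun j => ((s j : ℕ) : F))
        (ext p (fun i => PhiP (cvx F n (4 * n)) (crv2 F n L) c (X i)) i) =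
      ((genR n L c p (fun a => s (Sum.inl (Sum.inl a))) (fun l => s (Sum.inl (Sum.inr (Sum.inl l))))
        (fun l => s (Sum.inl (Sum.inr (Sum.inr l)))) (fun t => s (Sum.inr t)) i : ℕ) : F) := by
  unfold ext genR
  have h1 := roqDg_val F n L c (fun j => s (Sum.inl j)) i
  have h2 : eval (fun j => ((s j : ℕ) : F)) (rename Sum.inl
      (PhiP (cvx F n (4 * n)) (crv2 F n L) c (X i)) :
        MvPolynomial ((Fin 5 ⊕ (Fin c ⊕ Fin c)) ⊕ Fin (p + 1)) F) =
      ((gen n L c (fun a => s (Sum.inl (Sum.inl a))) (fun l => s (Sum.inl (Sum.inr (Sum.inl l))))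
        (fun l => s (Sum.inl (Sum.inr (Sum.inr l)))) i : ℕ) : F) := by
    rw [eval_rename, ORB.eval_PhiP, eval_X]
    exact h1
  have h3 := map_pq (Nat.castRingHom F) (fun l : Fin p => s (Sum.inr l.succ)) i
  simp only [eq_natCast] at h3
  rw [map_add, map_mul, h2, map_pq, eval_X, Nat.cast_add, Nat.cast_mul, h3]
  simp only [eval_X]

private theorem roqDg_comp {F : Type*} [Field F] {σ : Type*} {n : ℕ} (E : Fin n → MvPolynomial σ F)
    (w : σ → F) (x : Fin n → ℕ) (hx : ∀ i, eval w (E i) = ((x i : ℕ) : F))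
    (g : MvPolynomial (Fin n) F) :
    eval w (aeval E g) = eval (fun i => ((x i : ℕ) : F)) g := by
  induction g using MvPolynomial.induction_on with
  | C a => rw [aeval_C, algebraMap_eq, eval_C, eval_C]
  | add p q hp hq => rw [map_add, map_add, map_add, hp, hq]
  | mul_X p i hp => rw [map_mul, map_mul, map_mul, hp, aeval_X, eval_X, hx]

theorem gridR {F : Type*} [Field F] [CharZero F] {n w c p D' : ℕ} {g : MvPolynomial (Fin n) F}
    (hg : aeval (ext p fun i => PhiP (cvx F n (4 * n)) (crv2 F n (lev (max n w))) c (X i)) g ≠ 0)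
    (hD : g.totalDegree ≤ D') :
    ∃ x ∈ ptsR n (lev (max n w)) c p (degR n w p * D'), eval (fun i => ((x i : ℕ) : F)) g ≠ 0 := by
  obtain ⟨s, hs, hne⟩ := TWX.small_ne hg (B := degR n w p * D') (by
    refine (FOR.aeval_le (roqDg_tot F _) (fun a => ?_) g D' (degR n w p) hD _
      (fun v => roqDg_ext F n w c p v)).trans (le_of_eq (Nat.mul_comm _ _))
    show totalDegree (algebraMap F (MvPolynomial _ F) a) = 0
    rw [algebraMap_eq]
    exact totalDegree_C _)
  refine ⟨genR n (lev (max n w)) c p (fun a => s (Sum.inl (Sum.inl a)))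
        (fun l => s (Sum.inl (Sum.inr (Sum.inl l))))
        (fun l => s (Sum.inl (Sum.inr (Sum.inr l)))) (fun t => s (Sum.inr t)), ?_, fun h0 => hne ?_⟩
  · unfold ptsR
    refine Finset.mem_image.2 ⟨(fun a => s (Sum.inl (Sum.inl a)), (fun l => s (Sum.inl (Sum.inr (Sum.inl l))),
      (fun l => s (Sum.inl (Sum.inr (Sum.inr l))), fun t => s (Sum.inr t)))), ?_, rfl⟩
    simp only [Finset.mem_product, Finset.mem_range, Fintype.mem_piFinset, Nat.lt_succ_iff]
    exact ⟨fun _ => hs _, fun _ => hs _, fun _ => hs _, fun _ => hs _⟩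
  · exact (roqDg_comp _ _ _ (roqDg_eval F n (lev (max n w)) c p s) g).trans h0

theorem card_ptsR (n L c p B : ℕ) : (ptsR n L c p B).card ≤ (B + 1) ^ (6 + 2 * c + p) := by
  classical
  unfold ptsR
  refine Finset.card_image_le.trans ?_
  rw [Finset.card_product, Finset.card_product, Finset.card_product, Fintype.card_piFinset,
    Fintype.card_piFinset, Fintype.card_piFinset]
  simp only [Finset.card_range, Finset.prod_const, Finset.card_univ, Fintype.card_fin]
  rw [← pow_add, ← pow_add, ← pow_add]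
  exact le_of_eq (by congr 1; ring)

end Pool.Agent.ROQ
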