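import Pool.Agent.ROQ.Ord

/-!
MODULE ROQ-Leaf.  Leaves move.  Model: `Pool/Agent/ROL/Leaf.lean`.

PLAN.
* `coeff_one`: induction on `f` (`MvPolynomial.induction_on`), `Polynomial.mul_coeff_one`, `coeff_zero`,
  Leibniz on the right side.
* `mv_of_pderiv`.  Evaluate `coeff_one` at `z_s = - i` for all `s`: `pq (-i, …) j` contains the factor
  `pw (-i) j = 0` if `j ≠ i` and `p > 0`, and `pw (-i) i = ∏_{l ≠ i} (l - i) ≠ 0` in characteristic 0.
  So the coefficient 1 of `sub p β f` is not `0` and the degree is at least 1
  (`Polynomial.le_natDegree_of_ne_zero`).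
-/

set_option autoImplicit false

namespace Pool.Agent.ROQ

open MvPolynomial
open Pool.Agent.ROL (pw map_pw)

variable {F : Type*} [Field F] {n : ℕ}

theorem coeff_one (p : ℕ) (β : Fin n → F) (f : MvPolynomial (Fin n) F) :
    (sub p β f).coeff 1 = ∑ i, C (eval β (pderiv i f)) * pq (fun s => X s) i := by
  induction f using MvPolynomial.induction_on with
  | C a =>
    rw [sub_C, Polynomial.coeff_C]
    simp
  | add f g hf hg =>
    rw [map_add, Polynomial.coeff_add, hf, hg, ← Finset.sum_add_distrib]
    refine Finset.sum_congr rfl fun i _ => ?_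
    simp only [map_add]
    ring
  | mul_X f l hf =>
    have hX : sub p β (X l) = Polynomial.C (C (β l)) +
        Polynomial.X * Polynomial.C (pq (fun s => (X s : MvPolynomial (Fin p) F)) l) := by
      unfold sub
      rw [aeval_X]
    have h0 : (sub p β (X l)).coeff 0 = C (β l) := by
      rw [coeff_zero, eval_X]
    have h1 : (sub p β (X l)).coeff 1 = pq (fun s => (X s : MvPolynomial (Fin p) F)) l := by
      rw [hX, Polynomial.coeff_add, Polynomial.coeff_C, Polynomial.coeff_X_mul, Polynomial.coeff_C]
      simp
    rw [map_mul, Polynomial.mul_coeff_one, h0, h1, hf, coeff_zero]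
    have h2 : ∀ i : Fin n, C (eval β (pderiv i (f * X l))) *
        pq (fun s => (X s : MvPolynomial (Fin p) F)) i =
        (C (eval β (pderiv i f)) * pq (fun s => (X s : MvPolynomial (Fin p) F)) i) * C (β l) +
        (if i = l then C (eval β f) * pq (fun s => (X s : MvPolynomial (Fin p) F)) i else 0) := by
      intro i
      rw [Derivation.leibniz, pderiv_X]
      by_cases hil : i = l
      · subst hil
        simp only [Pi.single_eq_same, smul_eq_mul, mul_one, map_add, map_mul, eval_X, if_true]
        ring
      · rw [Pi.single_eq_of_ne (Ne.symm hil), if_neg hil]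
        simp only [smul_eq_mul, mul_zero, zero_add, map_mul, eval_X]
        ring
    rw [Finset.sum_congr rfl fun i _ => h2 i, Finset.sum_add_distrib, Finset.sum_ite_eq',
      if_pos (Finset.mem_univ l), ← Finset.sum_mul]
    ring

private theorem leaf_pw_ne [CharZero F] (i : Fin n) : pw (-((i : ℕ) : F)) i ≠ 0 := by
  unfold pw
  rw [Finset.prod_ne_zero_iff]
  intro j hj h
  have hne : j ≠ i := (Finset.mem_erase.1 hj).1
  have h1 : ((j : ℕ) : F) = ((i : ℕ) : F) := by linear_combination h
  exact hne (Fin.ext (by exact_mod_cast h1))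

private theorem leaf_pw_zero {i j : Fin n} (h : j ≠ i) : pw (-((i : ℕ) : F)) j = 0 := by
  unfold pw
  exact Finset.prod_eq_zero (Finset.mem_erase.2 ⟨Ne.symm h, Finset.mem_univ i⟩) (by ring)

theorem mv_of_pderiv [CharZero F] (p : ℕ) (hp : 0 < p) (β : Fin n → F) (f : MvPolynomial (Fin n) F)
    (i : Fin n) (h : eval β (pderiv i f) ≠ 0) : Mv p β f := by
  unfold Mv
  have hc : (sub p β f).coeff 1 ≠ 0 := by
    intro h0
    rw [coeff_one] at h0
    have h1 := congrArg (eval fun _ : Fin p => -((i : ℕ) : F)) h0
    rw [map_sum, map_zero] at h1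
    have h2 : ∀ j : Fin n, eval (fun _ : Fin p => -((i : ℕ) : F))
        (C (eval β (pderiv j f)) * pq (fun s => (X s : MvPolynomial (Fin p) F)) j) =
        eval β (pderiv j f) * pq (fun _ : Fin p => -((i : ℕ) : F)) j := by
      intro j
      rw [map_mul, eval_C, map_pq]
      simp only [eval_X]
    rw [Finset.sum_congr rfl fun j _ => h2 j, Finset.sum_eq_single i] at h1
    · rcases mul_eq_zero.1 h1 with h3 | h3
      · exact h h3
      · unfold pq at h3
        rw [Finset.prod_const] at h3
        exact leaf_pw_ne i (eq_zero_of_pow_eq_zero h3)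
    · intro j _ hj
      unfold pq
      rw [Finset.prod_const, leaf_pw_zero hj, zero_pow (by simp; omega), mul_zero]
    · intro hi
      exact absurd (Finset.mem_univ i) hi
  have := Polynomial.le_natDegree_of_ne_zero hc
  omega

end Pool.Agent.ROQ
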