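import Pool.Agent.ROL.Defs

/-!
Project ROQ (MP_e2be99_lc; paper proof `/team-store/pit48_ROL.md`): read-once compositions of ANY depth
with gates of arity `≤ p + 1` over a class of leaves are hit by the generator of the leaves with
`p + 1` more parameters.

`RO p 𝓛`: everything algebraic over at most `p + 1` already constructed polynomials without common
variables (in particular every polynomial in them), nested to any depth.  `pw z i = ∏_{j ≠ i} (z + j)`
(`Pool.Agent.ROL`); `pq z i = ∏_s pw (z_s) i`, so `y * pq z i` is `y / ∏_s (z_s + i)` times a common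
factor.  `ext G p`: the generator `G` plus `y * pq z`.
-/

set_option autoImplicit false

namespace Pool.Agent.ROQ

open MvPolynomial
open Pool.Agent.ROL (pw map_pw)

/-- Read-once formulas over `𝓛`: members of `𝓛`, and everything algebraic over at most `p + 1`
read-once formulas without common variables. -/
inductive RO {F : Type*} [Field F] {n : ℕ} (p : ℕ) (𝓛 : MvPolynomial (Fin n) F → Prop) :
    MvPolynomial (Fin n) F → Prop
  | leaf {f : MvPolynomial (Fin n) F} (hf : 𝓛 f) : RO p 𝓛 f
  | gate {k : ℕ} (hk : k ≤ p + 1) (b : Fin k → MvPolynomial (Fin n) F) (hb : ∀ j, RO p 𝓛 (b j))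
      (hd : ∀ j l, j ≠ l → Disjoint (b j).vars (b l).vars) {f : MvPolynomial (Fin n) F}
      (hf : IsAlgebraic (Algebra.adjoin F (Set.range b)) f) : RO p 𝓛 f

/-- `∏_s ∏_{j ≠ i} (z_s + j)` -/
def pq {R : Type*} [CommSemiring R] {n p : ℕ} (z : Fin p → R) (i : Fin n) : R := ∏ s, pw (z s) i

theorem map_pq {R S : Type*} [CommSemiring R] [CommSemiring S] (φ : R →+* S) {n p : ℕ}
    (z : Fin p → R) (i : Fin n) : φ (pq z i) = pq (fun s => φ (z s)) i := by
  unfold pq
  rw [map_prod]
  exact Finset.prod_congr rfl fun s _ => map_pw φ _ i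

variable {F : Type*} [Field F] {n : ℕ}

/-- The generator `G` with `p + 1` more parameters. -/
noncomputable def ext {σ : Type*} (p : ℕ) (G : Fin n → MvPolynomial σ F) (i : Fin n) :
    MvPolynomial (σ ⊕ Fin (p + 1)) F :=
  rename Sum.inl (G i) + X (Sum.inr 0) * pq (fun s : Fin p => X (Sum.inr s.succ)) i

/-- `f` at the points `β_i + y * pq z i`; the polynomial variable is `y`. -/
noncomputable def sub (p : ℕ) (β : Fin n → F) :
    MvPolynomial (Fin n) F →ₐ[F] Polynomial (MvPolynomial (Fin p) F) :=
  aeval fun i => Polynomial.C (C (β i)) +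
    Polynomial.X * Polynomial.C (pq (fun s => (X s : MvPolynomial (Fin p) F)) i)

/-- `f` moves: its value at `β_i + y * pq z i` depends on `y`. -/
def Mv (p : ℕ) (β : Fin n → F) (f : MvPolynomial (Fin n) F) : Prop := 0 < (sub p β f).natDegree

/-- `q` has degree `≤ N (n - 1)` in every variable and is divisible by the `N`-th powers of the
`z_s + i`, `i ∉ V`. -/
def Pl (n : ℕ) {m : ℕ} (V : Finset (Fin n)) (N : ℕ) (q : MvPolynomial (Fin m) F) : Prop :=
  ∀ s : Fin m, q.degreeOf s ≤ N * (n - 1) ∧ ∀ i : Fin n, i ∉ V → (X s + C ((i : ℕ) : F)) ^ N ∣ q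

/-- the differences of the elements of `S` -/
def diffs {ι : Type*} (S : Finset (ι → ℕ)) : Set (ι → ℚ) :=
  {v | ∃ s ∈ S, ∃ t ∈ S, v = fun j => (s j : ℚ) - (t j : ℚ)}

/-- The first nonzero Taylor coefficient at `a`. -/
noncomputable def lead {R : Type*} [CommRing R] (a : R) (Q : Polynomial R) : R :=
  (Polynomial.taylor a Q).trailingCoeff

end Pool.Agent.ROQ
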