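import Pool.Agent.ROQ.Defs

/-!
MODULE ROQ-Dim.  Dimensions of the spaces spanned by differences of exponents.
-/

set_option autoImplicit false

namespace Pool.Agent.ROQ

variable {ι : Type*} [Fintype ι]

/-- the linear functional `v ↦ ∑ j, b j * v j` -/
private noncomputable def Dim_phi (b : ι → ℕ) : (ι → ℚ) →ₗ[ℚ] ℚ := ∑ j, (b j : ℚ) • LinearMap.proj j

private theorem Dim_phi_apply (b : ι → ℕ) (v : ι → ℚ) : Dim_phi b v = ∑ j, (b j : ℚ) * v j := by
  simp [Dim_phi]

private theorem Dim_phi_sub (b : ι → ℕ) (s t : ι → ℕ) : Dim_phi b (fun j => (s j : ℚ) - (t j : ℚ)) =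
    ((∑ j, s j * b j : ℕ) : ℚ) - ((∑ j, t j * b j : ℕ) : ℚ) := by
  rw [Dim_phi_apply]
  push_cast
  rw [← Finset.sum_sub_distrib]
  exact Finset.sum_congr rfl fun j _ => by ring

private theorem Dim_ker (b : ι → ℕ) (S : Finset (ι → ℕ)) (μ : ℕ) (h : ∀ s ∈ S, ∑ j, s j * b j = μ) :
    Submodule.span ℚ (diffs S) ≤ LinearMap.ker (Dim_phi b) := by
  rw [Submodule.span_le]
  rintro _ ⟨s, hs, t, ht, rfl⟩
  rw [SetLike.mem_coe, LinearMap.mem_ker, Dim_phi_sub, h s hs, h t ht, sub_self]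

theorem dim_weight (S : Finset (ι → ℕ)) (N : ι → ℕ) (hN : ∀ j, 0 < N j) (μ : ℕ)
    (hμ : ∀ s ∈ S, ∑ j, s j * N j = μ) {m : ℕ} (hι : Fintype.card ι ≤ m + 1) :
    Module.finrank ℚ (Submodule.span ℚ (diffs S)) ≤ m := by
  have hcard : Module.finrank ℚ (ι → ℚ) = Fintype.card ι := Module.finrank_fintype_fun_eq_card ℚ
  rcases isEmpty_or_nonempty ι with hE | ⟨⟨j⟩⟩
  · have h1 := Submodule.finrank_le (Submodule.span ℚ (diffs S))
    rw [hcard, Fintype.card_eq_zero] at h1
    exact h1.trans (Nat.zero_le m)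
  · have h1 := Dim_ker N S μ hμ
    have h2 : LinearMap.ker (Dim_phi N) ≠ ⊤ := by
      classical
      intro h
      have h3 : (Pi.single j 1 : ι → ℚ) ∈ LinearMap.ker (Dim_phi N) := by
        rw [h]
        exact Submodule.mem_top
      rw [LinearMap.mem_ker, Dim_phi_apply, Finset.sum_eq_single j] at h3
      · rw [Pi.single_eq_same, mul_one] at h3
        have h4 : N j = 0 := by exact_mod_cast h3
        exact (hN j).ne' h4
      · intro k _ hk
        rw [Pi.single_eq_of_ne hk, mul_zero]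
      · intro hh
        exact absurd (Finset.mem_univ _) hh
    have h3 := Submodule.finrank_lt h2
    have h4 := Submodule.finrank_mono h1
    rw [hcard] at h3
    omega

theorem dim_face (S : Finset (ι → ℕ)) (b : ι → ℕ) (μ : ℕ) {s t : ι → ℕ} (hs : s ∈ S) (ht : t ∈ S)
    (hst : ∑ j, s j * b j ≠ ∑ j, t j * b j) {m : ℕ}
    (hd : Module.finrank ℚ (Submodule.span ℚ (diffs S)) ≤ m + 1) :
    Module.finrank ℚ (Submodule.span ℚ (diffs (S.filter fun s => ∑ j, s j * b j = μ))) ≤ m := by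
  have h1 := Dim_ker b (S.filter fun s => ∑ j, s j * b j = μ) μ fun s hs => (Finset.mem_filter.1 hs).2
  have h2 : Submodule.span ℚ (diffs (S.filter fun s => ∑ j, s j * b j = μ)) ≤ Submodule.span ℚ (diffs S) := by
    refine Submodule.span_mono ?_
    rintro _ ⟨s, hs, t, ht, rfl⟩
    exact ⟨s, (Finset.mem_filter.1 hs).1, t, (Finset.mem_filter.1 ht).1, rfl⟩
  have h3 : Submodule.span ℚ (diffs (S.filter fun s => ∑ j, s j * b j = μ)) < Submodule.span ℚ (diffs S) := by
    refine lt_of_le_of_ne h2 fun h => hst ?_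
    have h4 : (fun j => (s j : ℚ) - (t j : ℚ)) ∈ Submodule.span ℚ (diffs S) :=
      Submodule.subset_span ⟨s, hs, t, ht, rfl⟩
    rw [← h] at h4
    have h5 := h1 h4
    rw [LinearMap.mem_ker, Dim_phi_sub, sub_eq_zero] at h5
    exact_mod_cast h5
  have h4 := Submodule.finrank_lt_finrank_of_lt h3
  omega

theorem dim_zero (S : Finset (ι → ℕ)) {s t : ι → ℕ} (hs : s ∈ S) (ht : t ∈ S)
    (hd : Module.finrank ℚ (Submodule.span ℚ (diffs S)) ≤ 0) : s = t := by
  have h1 : Submodule.span ℚ (diffs S) = ⊥ := Submodule.finrank_eq_zero.1 (Nat.le_zero.1 hd)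
  have h2 : (fun j => (s j : ℚ) - (t j : ℚ)) ∈ Submodule.span ℚ (diffs S) :=
    Submodule.subset_span ⟨s, hs, t, ht, rfl⟩
  rw [h1, Submodule.mem_bot] at h2
  funext j
  have h3 := congrFun h2 j
  have h4 : (s j : ℚ) = t j := sub_eq_zero.1 h3
  exact_mod_cast h4

end Pool.Agent.ROQ
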