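import Pool.Agent.ROQ.Defs

/-!
MODULE ROQ-Ex.  The class contains the classical read-once formulas.
-/

set_option autoImplicit false

namespace Pool.Agent.ROQ

open MvPolynomial

variable {F : Type*} [Field F] {n p : ℕ} {𝓛 : MvPolynomial (Fin n) F → Prop}

private theorem Ex_alg {R : Type*} [CommRing R] [IsDomain R] [Algebra F R] (A : Subalgebra F R) {f : R} (hf : f ∈ A) :
    IsAlgebraic A f := by
  have h := isAlgebraic_algebraMap (R := A) (A := R) ⟨f, hf⟩
  exact h

theorem ro_const (a : F) : RO p 𝓛 (C a) := by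
  exact RO.gate (k := 0) (Nat.zero_le _) (fun j => j.elim0) (fun j => j.elim0) (fun j => j.elim0)
    (Ex_alg _ (Subalgebra.algebraMap_mem _ a))

theorem ro_aeval {k : ℕ} (hk : k ≤ p + 1) (b : Fin k → MvPolynomial (Fin n) F)
    (hb : ∀ j, RO p 𝓛 (b j)) (hd : ∀ j l, j ≠ l → Disjoint (b j).vars (b l).vars)
    (P : MvPolynomial (Fin k) F) : RO p 𝓛 (aeval b P) := by
  refine RO.gate hk b hb hd (Ex_alg _ ?_)
  rw [Algebra.adjoin_range_eq_range_aeval]
  exact ⟨P, rfl⟩

private theorem Ex_two (hp : 0 < p) {f g : MvPolynomial (Fin n) F} (hf : RO p 𝓛 f) (hg : RO p 𝓛 g)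
    (hd : Disjoint f.vars g.vars) (P : MvPolynomial (Fin 2) F) : RO p 𝓛 (aeval ![f, g] P) := by
  refine ro_aeval (by omega) ![f, g] (Fin.forall_fin_two.2 ⟨hf, hg⟩) (Fin.forall_fin_two.2 ⟨?_, ?_⟩) P
  · exact Fin.forall_fin_two.2 ⟨fun h => absurd rfl h, fun _ => hd⟩
  · exact Fin.forall_fin_two.2 ⟨fun _ => hd.symm, fun h => absurd rfl h⟩

theorem ro_sum (hp : 0 < p) {ι : Type*} (s : Finset ι) (f : ι → MvPolynomial (Fin n) F)
    (hf : ∀ i ∈ s, RO p 𝓛 (f i))
    (hd : ∀ i ∈ s, ∀ j ∈ s, i ≠ j → Disjoint (f i).vars (f j).vars) : RO p 𝓛 (∑ i ∈ s, f i) := by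
  classical
  induction s using Finset.induction_on with
  | empty =>
    rw [Finset.sum_empty]
    have h := ro_const (p := p) (𝓛 := 𝓛) (0 : F)
    rwa [map_zero] at h
  | insert a s ha ih =>
    rw [Finset.sum_insert ha]
    have h1 : RO p 𝓛 (∑ i ∈ s, f i) :=
      ih (fun i hi => hf i (Finset.mem_insert_of_mem hi))
        (fun i hi j hj => hd i (Finset.mem_insert_of_mem hi) j (Finset.mem_insert_of_mem hj))
    have h2 : Disjoint (f a).vars (∑ i ∈ s, f i).vars := by
      refine Finset.disjoint_of_subset_right (vars_sum_subset s f) ?_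
      rw [Finset.disjoint_biUnion_right]
      intro i hi
      exact hd a (Finset.mem_insert_self a s) i (Finset.mem_insert_of_mem hi) (fun h => ha (h ▸ hi))
    have h := Ex_two hp (hf a (Finset.mem_insert_self a s)) h1 h2 (X 0 + X 1)
    rw [map_add, aeval_X, aeval_X] at h
    exact h

theorem ro_prod (hp : 0 < p) {ι : Type*} (s : Finset ι) (f : ι → MvPolynomial (Fin n) F)
    (hf : ∀ i ∈ s, RO p 𝓛 (f i))
    (hd : ∀ i ∈ s, ∀ j ∈ s, i ≠ j → Disjoint (f i).vars (f j).vars) : RO p 𝓛 (∏ i ∈ s, f i) := by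
  classical
  induction s using Finset.induction_on with
  | empty =>
    rw [Finset.prod_empty]
    have h := ro_const (p := p) (𝓛 := 𝓛) (1 : F)
    rwa [map_one] at h
  | insert a s ha ih =>
    rw [Finset.prod_insert ha]
    have h1 : RO p 𝓛 (∏ i ∈ s, f i) :=
      ih (fun i hi => hf i (Finset.mem_insert_of_mem hi))
        (fun i hi j hj => hd i (Finset.mem_insert_of_mem hi) j (Finset.mem_insert_of_mem hj))
    have h2 : Disjoint (f a).vars (∏ i ∈ s, f i).vars := by
      refine Finset.disjoint_of_subset_right (vars_prod (s := s) f) ?_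
      rw [Finset.disjoint_biUnion_right]
      intro i hi
      exact hd a (Finset.mem_insert_self a s) i (Finset.mem_insert_of_mem hi) (fun h => ha (h ▸ hi))
    have h := Ex_two hp (hf a (Finset.mem_insert_self a s)) h1 h2 (X 0 * X 1)
    rw [map_mul, aeval_X, aeval_X] at h
    exact h

end Pool.Agent.ROQ
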