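import Pool.Agent.ROQ.Defs

/-!
MODULE ROQ-Face.  A sum of monomials is not 0 if the sum of its terms of lowest order at a point has a
nonzero leading coefficient.

PLAN.  `Polynomial.rootMultiplicity_eq_natTrailingDegree` and `Polynomial.taylor_apply`: the
multiplicity `b_j` of the root `a` of `Q_j` is the trailing degree of `T_j = taylor a (Q_j)`, and
`lead a (Q_j) = T_j.trailingCoeff = T_j.coeff b_j ≠ 0`.  `taylor a` is a ring homomorphism
(`Polynomial.taylor_mul`, `taylor_pow`, `taylorAlgHom`, `taylor_C`), injective (`taylor_eq_zero`).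
The coefficient of `X^μ` in `taylor a (∑ s ∈ S, C (c s) * ∏ j, Q_j ^ s_j) = ∑ s ∈ S, C (c s) *
∏ j, T_j ^ s_j` is the sum in the hypothesis `h`: `∏ j, T_j ^ s_j` has trailing degree
`∑ s_j b_j` and trailing coefficient `∏ j, lead a (Q_j) ^ s_j` (`Polynomial.natTrailingDegree_mul`,
`Polynomial.trailingCoeff_mul` over a domain, induction for powers and products), so its coefficient
`μ` is `0` if `μ < ∑ s_j b_j` (`Polynomial.coeff_eq_zero_of_lt_natTrailingDegree`) and the
trailing coefficient if equal.  Split the sum with `Finset.sum_filter` or `Finset.sum_subset`.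
-/

set_option autoImplicit false

namespace Pool.Agent.ROQ

open Polynomial

theorem lead_ne_zero {R : Type*} [CommRing R] (a : R) {Q : Polynomial R} (hQ : Q ≠ 0) :
    lead a Q ≠ 0 := by
  unfold lead
  intro h
  rw [trailingCoeff_eq_zero, taylor_eq_zero] at h
  exact hQ h

private theorem face_pow {R : Type*} [CommRing R] [IsDomain R] {T : Polynomial R} (hT : T ≠ 0) (m : ℕ) :
    (T ^ m).natTrailingDegree = m * T.natTrailingDegree ∧ (T ^ m).trailingCoeff = T.trailingCoeff ^ m := by
  induction m with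
  | zero =>
    rw [pow_zero, pow_zero, zero_mul]
    refine ⟨natTrailingDegree_one, ?_⟩
    unfold trailingCoeff
    rw [natTrailingDegree_one, coeff_one_zero]
  | succ m ih =>
    rw [pow_succ, natTrailingDegree_mul (pow_ne_zero m hT) hT, trailingCoeff_mul, ih.1, ih.2, pow_succ]
    exact ⟨by ring, rfl⟩

private theorem face_prod {R : Type*} [CommRing R] [IsDomain R] {ι : Type*} (T : ι → Polynomial R)
    (hT : ∀ j, T j ≠ 0) (s : ι → ℕ) (J : Finset ι) :
    (∏ j ∈ J, T j ^ s j).natTrailingDegree = ∑ j ∈ J, s j * (T j).natTrailingDegree ∧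
      (∏ j ∈ J, T j ^ s j).trailingCoeff = ∏ j ∈ J, (T j).trailingCoeff ^ s j := by
  classical
  induction J using Finset.induction_on with
  | empty =>
    rw [Finset.prod_empty, Finset.prod_empty, Finset.sum_empty]
    refine ⟨natTrailingDegree_one, ?_⟩
    unfold trailingCoeff
    rw [natTrailingDegree_one, coeff_one_zero]
  | insert j J hj ih =>
    have h1 : ∏ i ∈ J, T i ^ s i ≠ 0 := Finset.prod_ne_zero_iff.mpr fun i _ => pow_ne_zero _ (hT i)
    rw [Finset.prod_insert hj, Finset.prod_insert hj, Finset.sum_insert hj,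
      natTrailingDegree_mul (pow_ne_zero _ (hT j)) h1, trailingCoeff_mul, ih.1, ih.2,
      (face_pow (hT j) (s j)).1, (face_pow (hT j) (s j)).2]
    exact ⟨rfl, rfl⟩

theorem face {R : Type*} [CommRing R] [IsDomain R] {ι : Type*} [Fintype ι] (a : R)
    (Q : ι → Polynomial R) (hQ0 : ∀ j, Q j ≠ 0) (S : Finset (ι → ℕ)) (c : (ι → ℕ) → R) (μ : ℕ)
    (hmin : ∀ s ∈ S, μ ≤ ∑ j, s j * (Q j).rootMultiplicity a)
    (h : ∑ s ∈ S with ∑ j, s j * (Q j).rootMultiplicity a = μ, c s * ∏ j, lead a (Q j) ^ s j ≠ 0) :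
    ∑ s ∈ S, C (c s) * ∏ j, Q j ^ s j ≠ 0 := by
  classical
  intro h0
  apply h
  have hT : ∀ j, taylor a (Q j) ≠ 0 := fun j hj => hQ0 j ((taylor_eq_zero a (Q j)).mp hj)
  have hb : ∀ j, (Q j).rootMultiplicity a = (taylor a (Q j)).natTrailingDegree := fun j => by
    rw [rootMultiplicity_eq_natTrailingDegree, taylor_apply]
  have h1 := congrArg (fun q => (taylorAlgHom a q).coeff μ) h0
  simp only [map_sum, map_mul, map_prod, map_pow, map_zero, coeff_zero, finsetSum_coeff] at h1
  rw [← h1, Finset.sum_filter]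
  refine Finset.sum_congr rfl fun s hs => ?_
  have hC : taylorAlgHom a (C (c s)) = C (c s) := taylor_C a (c s)
  have hTa : ∀ j, taylorAlgHom a (Q j) = taylor a (Q j) := fun j => rfl
  rw [hC, coeff_C_mul]
  simp only [hTa]
  obtain ⟨h2, h3⟩ := face_prod (fun j => taylor a (Q j)) hT s Finset.univ
  have h4 : ∑ j, s j * (Q j).rootMultiplicity a = (∏ j, taylor a (Q j) ^ s j).natTrailingDegree := by
    rw [h2]
    exact Finset.sum_congr rfl fun j _ => by rw [hb j]
  split_ifs with h5
  · have h6 : (∏ j, taylor a (Q j) ^ s j).coeff μ = (∏ j, taylor a (Q j) ^ s j).trailingCoeff := by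
      unfold trailingCoeff
      rw [← h4, h5]
    rw [h6, h3]
    rfl
  · have h6 : μ < (∏ j, taylor a (Q j) ^ s j).natTrailingDegree := by
      rw [← h4]
      exact lt_of_le_of_ne (hmin s hs) (Ne.symm h5)
    rw [coeff_eq_zero_of_lt_natTrailingDegree h6, mul_zero]

end Pool.Agent.ROQ
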