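import Pool.Agent.ROQ.Defs

/-!
MODULE ROQ-Tay.  The property `Pl` passes to the first Taylor coefficient with respect to the first
variable.

PLAN.
* `natDegree_fin`: `natDegree_finSuccEquiv` and the bound for the variable `0`.
* `dvd_fin`: apply the ring homomorphism `finSuccEquiv F m` (`map_dvd`) to the divisibility for the
  variable `0` (`finSuccEquiv_X_zero`, constants: `finSuccEquiv_comp_C_eq_C`, `map_natCast`).
* `pl_lead`.  A Taylor coefficient `(taylor a Q).coeff k`, `a = -i` an integer, is a linear
  combination of the coefficients of `Q` with coefficients in `F` (integers): `taylor_coeff`,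
  `hasseDeriv_apply`, `eval` of a sum: `∑ l, (l.choose k) * Q.coeff l * a^(l-k)`, and `a ^ (l - k)`
  is a constant.  The trailing coefficient is such a coefficient.  For `s : Fin m`: `degreeOf s` of
  the coefficients of `finSuccEquiv F m A` is at most `degreeOf s.succ A`
  (`degreeOf_coeff_finSuccEquiv`), sums and constant multiples do not increase it
  (`degreeOf_sum_le`, `degreeOf_C_mul_le`, `degreeOf_mul_le`); `(X s.succ + C i)^N ∣ A` gives
  `Polynomial.C (X s + C i) ^ N ∣ finSuccEquiv F m A` (`finSuccEquiv_X_succ`), so `(X s + C i)^N`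
  divides all the coefficients (`Polynomial.C_dvd_iff_dvd_coeff`) and their linear combinations.
-/

set_option autoImplicit false

namespace Pool.Agent.ROQ

open MvPolynomial

variable {F : Type*} [Field F] {n m : ℕ} {V : Finset (Fin n)} {N : ℕ}

theorem natDegree_fin {A : MvPolynomial (Fin (m + 1)) F} (hA : Pl n V N A) :
    (finSuccEquiv F m A).natDegree ≤ N * (n - 1) := by
  rw [natDegree_finSuccEquiv]
  exact (hA 0).1

theorem dvd_fin {A : MvPolynomial (Fin (m + 1)) F} (hA : Pl n V N A) (i : Fin n) (hi : i ∉ V) :
    (Polynomial.X + Polynomial.C ((i : ℕ) : MvPolynomial (Fin m) F)) ^ N ∣ finSuccEquiv F m A := by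
  have h1 := map_dvd (finSuccEquiv F m) ((hA 0).2 i hi)
  rw [map_pow, map_add, finSuccEquiv_X_zero, map_natCast, map_natCast] at h1
  rw [map_natCast]
  exact h1

/-- A class of elements closed under linear combinations contains the Taylor coefficients of a
polynomial with coefficients in the class. -/
private theorem tay_closed (P : MvPolynomial (Fin m) F → Prop) (h0 : P 0)
    (hadd : ∀ a b, P a → P b → P (a + b)) (hmul : ∀ (c : F) a, P a → P (C c * a))
    (Q : Polynomial (MvPolynomial (Fin m) F)) (hQ : ∀ l, P (Q.coeff l)) (c : F) (k : ℕ) :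
    P ((Polynomial.taylor (C c) Q).coeff k) := by
  rw [Polynomial.taylor_coeff, Polynomial.eval_eq_sum_range]
  have hsum : ∀ S : Finset ℕ, P (∑ l ∈ S, (Polynomial.hasseDeriv k Q).coeff l * (C c) ^ l) := by
    intro S
    induction S using Finset.induction_on with
    | empty => simpa using h0
    | insert a S ha ih =>
      rw [Finset.sum_insert ha]
      refine hadd _ _ ?_ ih
      rw [Polynomial.hasseDeriv_coeff]
      have h1 : (((a + k).choose k : ℕ) : MvPolynomial (Fin m) F) * Q.coeff (a + k) * (C c) ^ a =
          C ((((a + k).choose k : ℕ) : F) * c ^ a) * Q.coeff (a + k) := by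
        rw [map_mul, map_natCast, map_pow]
        ring
      rw [h1]
      exact hmul _ _ (hQ _)
  exact hsum _

theorem pl_lead {A : MvPolynomial (Fin (m + 1)) F} (hA : Pl n V N A) (i : Fin n) :
    Pl n V N (lead (-((i : ℕ) : MvPolynomial (Fin m) F)) (finSuccEquiv F m A)) := by
  intro s
  have ha : (-((i : ℕ) : MvPolynomial (Fin m) F)) = C (-((i : ℕ) : F)) := by
    rw [map_neg, map_natCast]
  constructor
  · unfold lead Polynomial.trailingCoeff
    rw [ha]
    refine tay_closed (fun q => q.degreeOf s ≤ N * (n - 1)) ?_ ?_ ?_ _ ?_ _ _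
    · simp
    · intro a b h1 h2
      exact (degreeOf_add_le s a b).trans (max_le h1 h2)
    · intro c a h1
      exact (degreeOf_C_mul_le a s c).trans h1
    · intro l
      exact (degreeOf_coeff_finSuccEquiv A s l).trans (hA s.succ).1
  · intro j hj
    unfold lead Polynomial.trailingCoeff
    rw [ha]
    refine tay_closed (fun q => (X s + C ((j : ℕ) : F)) ^ N ∣ q) (dvd_zero _) ?_ ?_ _ ?_ _ _
    · intro a b h1 h2
      exact dvd_add h1 h2
    · intro c a h1
      exact h1.mul_left _
    · have h1 := map_dvd (finSuccEquiv F m) ((hA s.succ).2 j hj)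
      rw [map_pow, map_add, finSuccEquiv_X_succ, map_natCast, map_natCast] at h1
      have h2 : (Polynomial.C (X s) + ((j : ℕ) : Polynomial (MvPolynomial (Fin m) F))) ^ N =
          Polynomial.C ((X s + C ((j : ℕ) : F)) ^ N) := by
        rw [map_pow, map_add, map_natCast, map_natCast]
      rw [h2] at h1
      exact (Polynomial.C_dvd_iff_dvd_coeff _ _).1 h1

end Pool.Agent.ROQ
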