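import Pool.Agent.ROQ.Sep
import Pool.Agent.ROQ.Face
import Pool.Agent.ROQ.Tay
import Pool.Agent.ROQ.Dim

/-!
MODULE ROQ-Mono.  Monomials of the same weight in polynomials with poles in disjoint sets do not
cancel.
-/

set_option autoImplicit false

namespace Pool.Agent.ROQ

open MvPolynomial

private theorem mono_one {F : Type*} [Field F] {ι : Type*} [Fintype ι] {m : ℕ}
    (A : ι → MvPolynomial (Fin m) F) (hA0 : ∀ j, A j ≠ 0) (S : Finset (ι → ℕ)) (hS : S.Nonempty)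
    (h1 : ∀ s ∈ S, ∀ t ∈ S, s = t) (c : (ι → ℕ) → F) (hc : ∀ s ∈ S, c s ≠ 0) :
    ∑ s ∈ S, C (c s) * ∏ j, A j ^ s j ≠ 0 := by
  obtain ⟨s, hs⟩ := hS
  have hS1 : S = {s} := Finset.eq_singleton_iff_unique_mem.2 ⟨hs, fun t ht => h1 t ht s hs⟩
  rw [hS1, Finset.sum_singleton]
  refine mul_ne_zero (fun h => hc s hs (C_eq_zero.1 h)) ?_
  exact Finset.prod_ne_zero_iff.2 fun j _ => pow_ne_zero _ (hA0 j)

theorem mono_ne {F : Type*} [Field F] [CharZero F] {ι : Type*} [Fintype ι] {n m : ℕ} (hn : 0 < n)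
    (V : ι → Finset (Fin n)) (hV : ∀ j l, j ≠ l → Disjoint (V j) (V l)) (N : ι → ℕ)
    (hN : ∀ j, 0 < N j) (A : ι → MvPolynomial (Fin m) F) (hA0 : ∀ j, A j ≠ 0)
    (hA : ∀ j, Pl n (V j) (N j) (A j)) (S : Finset (ι → ℕ)) (hS : S.Nonempty) (μ : ℕ)
    (hμ : ∀ s ∈ S, ∑ j, s j * N j = μ)
    (hd : Module.finrank ℚ (Submodule.span ℚ (diffs S)) ≤ m) (c : (ι → ℕ) → F)
    (hc : ∀ s ∈ S, c s ≠ 0) :
    ∑ s ∈ S, C (c s) * ∏ j, A j ^ s j ≠ 0 := by
  classical
  induction m generalizing S with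
  | zero =>
    exact mono_one A hA0 S hS (fun s hs t ht => dim_zero S hs ht hd) c hc
  | succ m ih =>
    by_cases h1 : ∀ s ∈ S, ∀ t ∈ S, s = t
    · exact mono_one A hA0 S hS h1 c hc
    push Not at h1
    obtain ⟨s, hs, t, ht, hst⟩ := h1
    have hQ0 : ∀ j, finSuccEquiv F m (A j) ≠ 0 := fun j h =>
      hA0 j ((finSuccEquiv F m).injective (by rw [h, map_zero]))
    obtain ⟨i, hi⟩ := sep (R := MvPolynomial (Fin m) F) hn V hV N hN
      (fun j => finSuccEquiv F m (A j)) hQ0 (fun j => natDegree_fin (hA j))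
      (fun j i hi => dvd_fin (hA j) i hi) s t hst ((hμ s hs).trans (hμ t ht).symm)
    obtain ⟨s0, hs0, hmin⟩ := S.exists_min_image (fun s : ι → ℕ => ∑ j, s j *
      (finSuccEquiv F m (A j)).rootMultiplicity (-((i : ℕ) : MvPolynomial (Fin m) F))) hS
    set b : ι → ℕ := fun j =>
      (finSuccEquiv F m (A j)).rootMultiplicity (-((i : ℕ) : MvPolynomial (Fin m) F)) with hb
    have h2 := ih (fun j => lead (-((i : ℕ) : MvPolynomial (Fin m) F)) (finSuccEquiv F m (A j)))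
      (fun j => lead_ne_zero _ (hQ0 j)) (fun j => pl_lead (hA j) i)
      (S.filter fun s => ∑ j, s j * b j = ∑ j, s0 j * b j)
      ⟨s0, Finset.mem_filter.2 ⟨hs0, rfl⟩⟩ (fun s hs => hμ s (Finset.mem_filter.1 hs).1)
      (dim_face S b _ hs ht hi hd) (fun s hs => hc s (Finset.mem_filter.1 hs).1)
    have h3 := face (-((i : ℕ) : MvPolynomial (Fin m) F)) (fun j => finSuccEquiv F m (A j)) hQ0 S
      (fun s => C (c s)) (∑ j, s0 j * b j) hmin h2
    intro h0
    apply h3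
    have h4 := congrArg (finSuccEquiv F m) h0
    rw [map_sum, map_zero] at h4
    rw [← h4]
    refine Finset.sum_congr rfl fun s _ => ?_
    rw [map_mul, map_prod]
    congr 1
    · exact ((finSuccEquiv F m).commutes (c s)).symm
    · exact Finset.prod_congr rfl fun j _ => (map_pow _ _ _).symm

end Pool.Agent.ROQ
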