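import Pool.Agent.ROQ.Ord
import Pool.Agent.ROQ.Mono

/-!
MODULE ROQ-Gate.  Moving polynomials without common variables become algebraically independent.
Model: `Pool/Agent/ROL/Gate.lean` (two polynomials).

PLAN.
* `gate_coeff`.  `aeval Q P = ∑ s ∈ P.support, algebraMap (coeff s P) * ∏ j, Q j ^ s j` (`aeval_def`,
  `eval₂_eq'`).  The coefficient of `y^μ` of a term is `0` if `∑ s j * natDegree (Q j) < μ`, and the
  product of the leading coefficients if it is `μ` (all `Q j ≠ 0`: `Polynomial.natDegree_prod`,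
  `leadingCoeff_prod`, `leadingCoeff_pow`, `natDegree_pow` over a domain, `coeff_natDegree`).
* `gate_indep`.  `algebraicIndependent_iff`: let `aeval (sub ∘ b) P = 0` and suppose `P ≠ 0`.  Let
  `N j = (sub p β (b j)).natDegree > 0`, let `μ` be the maximum of `∑ j, s j * N j` over the support
  (`Finset.exists_max_image`).  By `gate_coeff` the coefficient of `y^μ` is the sum over the `s` in the
  support of weight `μ`; transport it to `S : Finset (ι → ℕ)`, the image of this set under
  `s ↦ (s : ι → ℕ)` (injective: `DFunLike.coe_injective`, `Finset.sum_image`/`sum_map`), with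
  `c s = P.coeff (Finsupp.equivFunOnFinite.symm s)`.  `mono_ne` with `A j` the leading coefficient of
  `sub p β (b j)`, `V j = (b j).vars`, `coeff_pl` and `dim_weight` (`card ι ≤ p + 1`) shows that it is
  not `0`.  `n > 0`: if `n = 0` all polynomials are constants (`eq_C_of_isEmpty`) and nothing moves; so
  `ι` is empty, and then `P = C a` and `aeval _ P = algebraMap a`.
-/

set_option autoImplicit false

namespace Pool.Agent.ROQ

open MvPolynomial

variable {F : Type*} [Field F] {n : ℕ}

theorem gate_coeff {ι : Type*} [Fintype ι] {m : ℕ} (Q : ι → Polynomial (MvPolynomial (Fin m) F))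
    (hQ : ∀ j, Q j ≠ 0) (P : MvPolynomial ι F) (μ : ℕ)
    (hμ : ∀ s ∈ P.support, ∑ j, s j * (Q j).natDegree ≤ μ) :
    (aeval Q P).coeff μ =
      ∑ s ∈ P.support with ∑ j, s j * (Q j).natDegree = μ,
        C (P.coeff s) * ∏ j, (Q j).leadingCoeff ^ s j := by
  have key : ∀ s ∈ P.support,
      (algebraMap F (Polynomial (MvPolynomial (Fin m) F)) (P.coeff s) *
        (∏ j, Q j ^ s j)).coeff μ =
      if ∑ j, s j * (Q j).natDegree = μ then
        C (P.coeff s) * ∏ j, (Q j).leadingCoeff ^ s j else 0 := by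
    intro s hs
    have hle := hμ s hs
    have ha : algebraMap F (Polynomial (MvPolynomial (Fin m) F)) (P.coeff s) =
        Polynomial.C (C (P.coeff s)) := rfl
    have hdeg : (∏ j, Q j ^ s j).natDegree = ∑ j, s j * (Q j).natDegree := by
      rw [Polynomial.natDegree_prod _ _ (fun j _ => pow_ne_zero _ (hQ j))]
      exact Finset.sum_congr rfl fun j _ => Polynomial.natDegree_pow _ _
    rw [ha, Polynomial.coeff_C_mul]
    split_ifs with h
    · congr 1
      rw [← h, ← hdeg, Polynomial.coeff_natDegree, Polynomial.leadingCoeff_prod]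
      exact Finset.prod_congr rfl fun j _ => Polynomial.leadingCoeff_pow _ _
    · have hlt : ∑ j, s j * (Q j).natDegree < μ := lt_of_le_of_ne hle h
      rw [Polynomial.coeff_eq_zero_of_natDegree_lt (by rw [hdeg]; exact hlt), mul_zero]
  rw [aeval_def, eval₂_eq', Polynomial.finsetSum_coeff, Finset.sum_filter]
  exact Finset.sum_congr rfl key

private theorem gate_aux [CharZero F] {m : ℕ} {ι : Type*} [Fintype ι]
    (hι : Fintype.card ι ≤ m + 1) (V : ι → Finset (Fin n)) (hn : 0 < n)
    (hd : ∀ j l, j ≠ l → Disjoint (V j) (V l))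
    (Q : ι → Polynomial (MvPolynomial (Fin m) F)) (hQd : ∀ j, 0 < (Q j).natDegree)
    (hpl : ∀ j, Pl n (V j) (Q j).natDegree (Q j).leadingCoeff) :
    AlgebraicIndependent F Q := by
  classical
  rw [algebraicIndependent_iff]
  intro P hP
  by_contra hP0
  have hQ : ∀ j, Q j ≠ 0 := by
    intro j h
    have h1 := hQd j
    rw [h, Polynomial.natDegree_zero] at h1
    exact lt_irrefl 0 h1
  have hne : P.support.Nonempty := by
    rw [Finset.nonempty_iff_ne_empty]
    intro h
    exact hP0 (support_eq_empty.mp h)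
  obtain ⟨s₀, hs₀, hmax⟩ := Finset.exists_max_image P.support
    (fun s => ∑ j, s j * (Q j).natDegree) hne
  have hco := gate_coeff Q hQ P _ hmax
  rw [hP, Polynomial.coeff_zero] at hco
  let T : Finset (ι →₀ ℕ) := P.support.filter
    (fun s => ∑ j, s j * (Q j).natDegree = ∑ j, s₀ j * (Q j).natDegree)
  let S : Finset (ι → ℕ) := T.image (fun s : ι →₀ ℕ => (s : ι → ℕ))
  have hsum : (∑ s ∈ T, C (P.coeff s) * ∏ j, (Q j).leadingCoeff ^ s j) =
      ∑ z ∈ S, C (P.coeff (Finsupp.equivFunOnFinite.symm z)) *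
        ∏ j, (Q j).leadingCoeff ^ z j := by
    rw [Finset.sum_image]
    · refine Finset.sum_congr rfl fun s _ => ?_
      rw [Finsupp.equivFunOnFinite_symm_coe]
    · intro s _ t _ h
      exact DFunLike.coe_injective h
  have hS : ∀ z ∈ S, ∑ j, z j * (Q j).natDegree = ∑ j, s₀ j * (Q j).natDegree := by
    intro z hz
    obtain ⟨s, hs, rfl⟩ := Finset.mem_image.mp hz
    exact (Finset.mem_filter.mp hs).2
  refine mono_ne hn V hd
    (fun j => (Q j).natDegree) hQd (fun j => (Q j).leadingCoeff)
    (fun j => Polynomial.leadingCoeff_ne_zero.2 (hQ j)) hpl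
    S ?_ _ hS (dim_weight _ _ hQd _ hS hι)
    (fun z => P.coeff (Finsupp.equivFunOnFinite.symm z)) ?_ ?_
  · exact ⟨_, Finset.mem_image.mpr ⟨s₀, Finset.mem_filter.mpr ⟨hs₀, rfl⟩, rfl⟩⟩
  · intro z hz
    obtain ⟨s, hs, rfl⟩ := Finset.mem_image.mp hz
    rw [Finsupp.equivFunOnFinite_symm_coe]
    exact mem_support_iff.mp (Finset.mem_filter.mp hs).1
  · exact hsum.symm.trans hco.symm

theorem gate_indep [CharZero F] (p : ℕ) (β : Fin n → F) {ι : Type*} [Fintype ι]
    (hι : Fintype.card ι ≤ p + 1) (b : ι → MvPolynomial (Fin n) F) (hb : ∀ j, Mv p β (b j))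
    (hd : ∀ j l, j ≠ l → Disjoint (b j).vars (b l).vars) :
    AlgebraicIndependent F fun j => sub p β (b j) := by
  by_cases hn : n = 0
  · subst hn
    have hemp : IsEmpty ι := ⟨fun j => by
      have h1 := hb j
      unfold Mv at h1
      rw [MvPolynomial.eq_C_of_isEmpty (b j), sub_C, Polynomial.natDegree_C] at h1
      exact lt_irrefl 0 h1⟩
    exact algebraicIndependent_empty_type_iff.2
      (Polynomial.C_injective.comp (C_injective (Fin p) F))
  · exact gate_aux hι (fun j => (b j).vars) (Nat.pos_of_ne_zero hn) hd _ hb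
      (fun j => coeff_pl p β (b j) _)

end Pool.Agent.ROQ
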