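import Pool.Agent.ROQ.Base
import Pool.Agent.ROL.Lim
import Pool.Agent.ROQ.Dg
import Pool.Agent.ROQ.Bit
import Pool.Agent.TXL.Ex

/-!
# ROQ: the statement (becomes a file of Results/MP_e2be99_lc)
-/

set_option autoImplicit false

namespace Pool.Agent.ROQ.ReadOnceLimits

open MvPolynomial
open Pool.Agent.FOR (lev)
open Pool.Agent.CLK (EtotK)
open Pool.Agent.TXL (LimitLeaves deg rkT border_sum leaf_prod)

theorem result.{u, v, x} :
    (∀ n p κ k w r c D Δ D' : ℕ,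
      (pointsR n p κ k w r c D Δ D').card ≤
        (degR n (rkT κ k w r c D Δ) p * D' + 1) ^ (10 + 2 * EtotK κ k w Δ + p) ∧
      (∀ y ∈ pointsR n p κ k w r c D Δ D', ∀ i,
        y i ≤ (2 * (degR n (rkT κ k w r c D Δ) p * D') + (2 + EtotK κ k w Δ) + 4 * n + 2) ^
          (2 ^ 4000 * (n + rkT κ k w r c D Δ + 1) ^ 500 + 12 * n + p * n + 4)) ∧
      ∀ (F : Type x) [Field F] [CharZero F] (m : ℕ) (P : Fin m → MvPolynomial (Fin n) F), 0 < p →
        (∀ j, P j ≠ 0 ∧ RO p (LimitLeaves.{u, v, x} n κ k w r c D Δ) (P j)) →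
        ∀ g : MvPolynomial (Fin n) F, g ∣ ∏ j, P j → g.totalDegree ≤ D' →
          ∃ y ∈ pointsR n p κ k w r c D Δ D', eval (fun i => ((y i : ℕ) : F)) g ≠ 0) ∧
    ∀ (F : Type x) [Field F] (n k D s : ℕ)
      (f : Fin k → Fin s → Fin n → MvPolynomial (Fin n) (LaurentSeries F))
      (h : MvPolynomial (Fin n) (PowerSeries F)), 0 < D → (∀ i j v, (f i j v).vars ⊆ {v}) →
      (∀ i, (∏ j, ∑ v, f i j v).totalDegree ≤ D) →
      MvPolynomial.map (algebraMap (PowerSeries F) (LaurentSeries F)) h = ∑ i, ∏ j, ∑ v, f i j v →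
      LimitLeaves.{x, x, x} n 0 k 0 1 2 D 0
        (MvPolynomial.map (PowerSeries.constantCoeff (R := F)) h) := by
  refine ⟨fun n p κ k w r c D Δ D' => ⟨?_, fun y hy i => bit_ptsR n _ _ _ _ y hy i,
    fun F _ _ m P hp hP g hg hD => gridR (ro_prod_hit hp _ (LimitLeaves.{u, v, x} n κ k w r c D Δ)
      (fun f hf hn a => ?_) P hP g hg) hD⟩,
    fun F _ n k D s f h hD hf hd hh => border_sum 0 0 _
      (fun i => leaf_prod (f i) (hf i) (hd i) hD) h hh⟩
  · have h := card_ptsR n (lev (max n (rkT κ k w r c D Δ))) (2 + EtotK κ k w Δ) p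
      (degR n (rkT κ k w r c D Δ) p * D')
    have e : 6 + 2 * (2 + EtotK κ k w Δ) + p = 10 + 2 * EtotK κ k w Δ + p := by ring
    rwa [e] at h
  · rw [Pool.Agent.ORB.aeval_PhiP_X]
    exact Pool.Agent.ROL.limit_const κ k w r c D Δ f hf hn a

end Pool.Agent.ROQ.ReadOnceLimits
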