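import Pool.Agent.ROQ.Defs

/-!
MODULE ROQ-Ord.  The coefficients of `f (β_i + y * pq z i)` as a polynomial in `y`.
Model: `Pool/Agent/ROL/Ord.lean` (one variable `z`).

PLAN.
* `sub_C`: `aeval_C`, the algebra map is `C ∘ C`.  `coeff_zero`: the two ring homomorphisms
  `Polynomial.constantCoeff ∘ sub p β` and `C ∘ eval β` agree on constants and variables
  (`MvPolynomial.induction_on` or `ringHom_ext`; `Polynomial.mul_coeff_zero`).
* `coeff_pl`.  Fix `V`.  The set of `P : Polynomial (MvPolynomial (Fin p) F)` with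
  `∀ N, Pl n V N (P.coeff N)` is closed under sums (`degreeOf_add_le`, `dvd_add`), products
  (`Polynomial.coeff_mul`, `degreeOf_mul_le`, `pow_add`; sums over the antidiagonal:
  `degreeOf_sum_le`, `Finset.dvd_sum`), contains `C (C a)` (coefficient 0 has degree 0 and `N = 0` is
  trivial, the other coefficients are 0) and `sub p β (X l)` for `l ∈ V`: its coefficient 1 is
  `pq X l = ∏_s ∏_{j ≠ l} (X s + j)`, of degree `≤ n - 1` in each variable (`degreeOf_prod_le`, only the
  factor `s` contains `X s`, `Finset.card_erase_of_mem`), and divisible by `X s + i` for `i ≠ l`.  Write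
  `f` as the sum of its monomials (`f.as_sum` or `aeval_def`, `eval₂_eq`): only variables of
  `f.vars = V` occur (`mem_vars`).
-/

set_option autoImplicit false

namespace Pool.Agent.ROQ

open MvPolynomial
open Pool.Agent.ROL (pw)

variable {F : Type*} [Field F] {n : ℕ}

theorem sub_C (p : ℕ) (β : Fin n → F) (a : F) : sub p β (C a) = Polynomial.C (C a) := by
  unfold sub
  rw [aeval_C]
  rfl

private theorem Ord_coeff_X (p : ℕ) (β : Fin n → F) (j : Fin n) (m : ℕ) : (sub p β (X j)).coeff m =
    if m = 0 then C (β j) else if m = 1 then pq (fun s => (X s : MvPolynomial (Fin p) F)) j else 0 := by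
  have h0 : sub p β (X j) = Polynomial.C (C (β j)) +
      Polynomial.X * Polynomial.C (pq (fun s => (X s : MvPolynomial (Fin p) F)) j) := by
    unfold sub
    rw [aeval_X]
  rw [h0, Polynomial.coeff_add, Polynomial.coeff_C]
  rcases m with _ | m
  · rw [Polynomial.coeff_X_mul_zero, if_pos rfl, if_pos rfl, add_zero]
  · rw [Polynomial.coeff_X_mul, Polynomial.coeff_C, if_neg (Nat.succ_ne_zero m),
      if_neg (Nat.succ_ne_zero m), zero_add]
    by_cases h : m = 0
    · rw [if_pos h, if_pos (by rw [h])]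
    · rw [if_neg h, if_neg (by omega)]

theorem coeff_zero (p : ℕ) (β : Fin n → F) (f : MvPolynomial (Fin n) F) :
    (sub p β f).coeff 0 = C (eval β f) := by
  induction f using MvPolynomial.induction_on with
  | C a => rw [sub_C, Polynomial.coeff_C_zero, eval_C]
  | add q r hq hr => rw [map_add, Polynomial.coeff_add, hq, hr, map_add, map_add]
  | mul_X q j hq => rw [map_mul, Polynomial.mul_coeff_zero, hq, Ord_coeff_X, if_pos rfl, map_mul, eval_X, map_mul]

/-- induction for the polynomials in the variables in `V` -/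
private theorem Ord_ind (p : ℕ) (β : Fin n → F) (V : Finset (Fin n))
    (P : Polynomial (MvPolynomial (Fin p) F) → Prop)
    (hC : ∀ a, P (Polynomial.C (C a))) (hX : ∀ j ∈ V, P (sub p β (X j)))
    (hadd : ∀ q r, P q → P r → P (q + r)) (hmul : ∀ q r, P q → P r → P (q * r))
    (f : MvPolynomial (Fin n) F) (hf : f.vars ⊆ V) : P (sub p β f) := by
  have h1 : f ∈ MvPolynomial.supported F (V : Set (Fin n)) := by
    rw [MvPolynomial.mem_supported]
    exact_mod_cast hf
  unfold MvPolynomial.supported at h1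
  clear hf
  induction h1 using Algebra.adjoin_induction with
  | mem x hx =>
    obtain ⟨j, hj, rfl⟩ := hx
    exact hX j hj
  | algebraMap a =>
    have h2 : (algebraMap F (MvPolynomial (Fin n) F)) a = C a := rfl
    rw [h2, sub_C]
    exact hC a
  | add x y _ _ hx hy =>
    rw [map_add]
    exact hadd _ _ hx hy
  | mul x y _ _ hx hy =>
    rw [map_mul]
    exact hmul _ _ hx hy

private theorem Ord_zero {m : ℕ} (V : Finset (Fin n)) (N : ℕ) : Pl n V N (0 : MvPolynomial (Fin m) F) :=
  fun s => ⟨by rw [degreeOf_zero]; exact Nat.zero_le _, fun i _ => dvd_zero _⟩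

private theorem Ord_C {m : ℕ} (V : Finset (Fin n)) (a : F) : Pl n V 0 (C a : MvPolynomial (Fin m) F) :=
  fun s => ⟨by rw [degreeOf_C]; exact Nat.zero_le _, fun i _ => by rw [pow_zero]; exact one_dvd _⟩

private theorem Ord_add {m : ℕ} (V : Finset (Fin n)) (N : ℕ) {q r : MvPolynomial (Fin m) F}
    (hq : Pl n V N q) (hr : Pl n V N r) : Pl n V N (q + r) :=
  fun s => ⟨(degreeOf_add_le s q r).trans (max_le (hq s).1 (hr s).1),
    fun i hi => dvd_add ((hq s).2 i hi) ((hr s).2 i hi)⟩

private theorem Ord_mul {m : ℕ} (V : Finset (Fin n)) (N M : ℕ) {q r : MvPolynomial (Fin m) F}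
    (hq : Pl n V N q) (hr : Pl n V M r) : Pl n V (N + M) (q * r) :=
  fun s => ⟨(degreeOf_mul_le s q r).trans (by rw [add_mul]; exact add_le_add (hq s).1 (hr s).1),
    fun i hi => by rw [pow_add]; exact mul_dvd_mul ((hq s).2 i hi) ((hr s).2 i hi)⟩

private theorem Ord_sum {m : ℕ} (V : Finset (Fin n)) (N : ℕ) {ι : Type*} (S : Finset ι)
    (q : ι → MvPolynomial (Fin m) F) (hq : ∀ x ∈ S, Pl n V N (q x)) : Pl n V N (∑ x ∈ S, q x) := by
  classical
  induction S using Finset.induction_on with
  | empty =>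
    rw [Finset.sum_empty]
    exact Ord_zero V N
  | insert a S ha ih =>
    rw [Finset.sum_insert ha]
    exact Ord_add V N (hq a (Finset.mem_insert_self a S))
      (ih fun x hx => hq x (Finset.mem_insert_of_mem hx))

private theorem Ord_pw {p : ℕ} (s s' : Fin p) (l : Fin n) :
    (pw (X s' : MvPolynomial (Fin p) F) l).degreeOf s ≤ if s = s' then n - 1 else 0 := by
  unfold pw
  refine (degreeOf_prod_le _ _ _).trans ?_
  have h1 : ∀ j ∈ Finset.univ.erase l, ((X s' : MvPolynomial (Fin p) F) +
      (((j : Fin n) : ℕ) : MvPolynomial (Fin p) F)).degreeOf s ≤ if s = s' then 1 else 0 := by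
    intro j _
    have h2 : (((j : Fin n) : ℕ) : MvPolynomial (Fin p) F) = C ((j : ℕ) : F) := (map_natCast C _).symm
    rw [h2]
    refine (degreeOf_add_le _ _ _).trans (max_le ?_ ?_)
    · rw [degreeOf_X]
    · rw [degreeOf_C]
      exact Nat.zero_le _
  refine (Finset.sum_le_card_nsmul _ _ _ h1).trans ?_
  rw [Finset.card_erase_of_mem (Finset.mem_univ l), Finset.card_univ, Fintype.card_fin, smul_eq_mul]
  split_ifs
  · rw [mul_one]
  · rw [mul_zero]

private theorem Ord_pq {p : ℕ} (V : Finset (Fin n)) (l : Fin n) (hl : l ∈ V) :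
    Pl n V 1 (pq (fun s => (X s : MvPolynomial (Fin p) F)) l) := by
  intro s
  constructor
  · unfold pq
    refine (degreeOf_prod_le _ _ _).trans ?_
    refine (Finset.sum_le_sum fun s' _ => Ord_pw s s' l).trans ?_
    rw [Finset.sum_ite_eq, if_pos (Finset.mem_univ s), one_mul]
  · intro i hi
    have hil : i ≠ l := fun h => hi (h ▸ hl)
    rw [pow_one]
    unfold pq
    refine dvd_trans ?_ (Finset.dvd_prod_of_mem _ (Finset.mem_univ s))
    have h2 : (X s : MvPolynomial (Fin p) F) + C ((i : ℕ) : F) = X s + ((i : ℕ) : MvPolynomial (Fin p) F) := by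
      rw [map_natCast]
    rw [h2]
    unfold pw
    exact Finset.dvd_prod_of_mem (fun j : Fin n => (X s : MvPolynomial (Fin p) F) +
      ((j : ℕ) : MvPolynomial (Fin p) F)) (Finset.mem_erase.2 ⟨hil, Finset.mem_univ i⟩)

theorem coeff_pl (p : ℕ) (β : Fin n → F) (f : MvPolynomial (Fin n) F) (N : ℕ) :
    Pl n f.vars N ((sub p β f).coeff N) := by
  refine Ord_ind p β f.vars (fun P => ∀ N, Pl n f.vars N (P.coeff N)) (fun a N => ?_)
    (fun j hj N => ?_) (fun q r hq hr N => ?_) (fun q r hq hr N => ?_) f (Finset.Subset.refl _) N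
  · rw [Polynomial.coeff_C]
    split_ifs with h
    · rw [h]
      exact Ord_C _ a
    · exact Ord_zero _ N
  · rw [Ord_coeff_X]
    split_ifs with h h'
    · rw [h]
      exact Ord_C _ _
    · rw [h']
      exact Ord_pq _ j hj
    · exact Ord_zero _ N
  · rw [Polynomial.coeff_add]
    exact Ord_add _ N (hq N) (hr N)
  · rw [Polynomial.coeff_mul]
    refine Ord_sum _ N _ _ fun x hx => ?_
    have h3 := Ord_mul f.vars x.1 x.2 (hq x.1) (hr x.2)
    rwa [Finset.HasAntidiagonal.mem_antidiagonal.1 hx] at h3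

end Pool.Agent.ROQ
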