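import Pool.Agent.ROQ.Defs

/-!
MODULE ROQ-Sep.  A place which separates two monomials of the same weight.

`Q_j` are nonzero polynomials in one variable over a domain of characteristic 0, of degree
`≤ N_j (n - 1)`, divisible by `(X + i)^(N_j)` for `i ∉ V_j`; the `V_j` are pairwise disjoint.

PLAN.  Suppose all the sums are equal.  Let `m_j = min (s_j) (t_j)`, `u = s - m`, `v = t - m`; then
`∑ u_j N_j = ∑ v_j N_j =: ν`, `u_j = 0` or `v_j = 0` for each `j`, `(u, v) ≠ (0, 0)`, so `ν > 0` (all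
`N_j > 0`), and for every `i : Fin n`
`∑ u_j mult_i (Q_j) = ∑ v_j mult_i (Q_j)`  (*), `mult_i` the multiplicity of the root `-i`.
CLAIM: `ν ≤ ∑ u_j mult_i (Q_j)` for all `i : Fin n`.  If `i ∉ V_j` for all `j` with `u_j > 0`: then
`mult_i (Q_j) ≥ N_j` for these `j` (`Polynomial.le_rootMultiplicity_iff`, `X + C i = X - C (-i)`).
Otherwise `i ∈ V_l` for some `l` with `u_l > 0`; then `v_l = 0`, and `i ∉ V_j` for `j ≠ l`, so
`∑ v_j mult_i (Q_j) ≥ ν`; use (*).
So `G = ∏ j, Q_j ^ u_j ≠ 0` has the `n` different roots `-i` with multiplicity at least `ν`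
(`Polynomial.rootMultiplicity_mul`, induction for products and powers, or `pow_dvd_pow`,
`Finset.prod_dvd_prod_of_dvd`: `(X + C i)^ν ∣ G`), so `∏ i, (X + C i)^ν ∣ G`
(over a domain: through `Polynomial.roots`: `∑ i, count ≤ card roots ≤ natDegree`; or pass to the
fraction field, where the factors are coprime), `natDegree G ≥ n ν`; but
`natDegree G ≤ ∑ u_j N_j (n - 1) = ν (n - 1) < n ν` as `n > 0`, `ν > 0`.
-/

set_option autoImplicit false

namespace Pool.Agent.ROQ

open Polynomial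

/-- Different elements have total multiplicity at most the degree. -/
private theorem Sep_sum_le {R : Type*} [CommRing R] [IsDomain R] {κ : Type*} [Fintype κ]
    (f : κ → R) (hf : Function.Injective f) (Q : Polynomial R) :
    ∑ i, Q.rootMultiplicity (f i) ≤ Q.natDegree := by
  classical
  have h1 : ∑ i, Q.rootMultiplicity (f i) = ∑ a ∈ Finset.univ.image f, Q.roots.count a := by
    rw [Finset.sum_image (fun x _ y _ h => hf h)]
    exact Finset.sum_congr rfl fun i _ => (Polynomial.count_roots Q).symm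
  have h2 : ∑ a ∈ Finset.univ.image f, Q.roots.count a ≤
      ∑ a ∈ Finset.univ.image f ∪ Q.roots.toFinset, Q.roots.count a :=
    Finset.sum_le_sum_of_subset Finset.subset_union_left
  have h3 : ∑ a ∈ Finset.univ.image f ∪ Q.roots.toFinset, Q.roots.count a = Q.roots.card :=
    Multiset.sum_count_eq_card fun a ha =>
      Finset.mem_union_right _ (Multiset.mem_toFinset.mpr ha)
  rw [h1]
  exact (h2.trans h3.le).trans (Polynomial.card_roots' Q)

private theorem Sep_cancel {ι : Type*} [Fintype ι] (s t w : ι → ℕ)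
    (h : ∑ j, s j * w j = ∑ j, t j * w j) :
    ∑ j, (s j - t j) * w j = ∑ j, (t j - s j) * w j := by
  have h1 : ∑ j, s j * w j = ∑ j, (s j - t j) * w j + ∑ j, min (s j) (t j) * w j := by
    rw [← Finset.sum_add_distrib]
    refine Finset.sum_congr rfl fun j _ => ?_
    rw [← add_mul]
    congr 1
    omega
  have h2 : ∑ j, t j * w j = ∑ j, (t j - s j) * w j + ∑ j, min (s j) (t j) * w j := by
    rw [← Finset.sum_add_distrib]
    refine Finset.sum_congr rfl fun j _ => ?_
    rw [← add_mul]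
    congr 1
    omega
  omega

/-- The combinatorial core. -/
private theorem Sep_core {ι : Type*} [Fintype ι] {n : ℕ} (hn : 0 < n) (V : ι → Finset (Fin n))
    (hV : ∀ j l, j ≠ l → Disjoint (V j) (V l)) (N : ι → ℕ) (hN : ∀ j, 0 < N j)
    (μ : Fin n → ι → ℕ) (hμ1 : ∀ j, ∑ i, μ i j ≤ N j * (n - 1))
    (hμ2 : ∀ j, ∀ i : Fin n, i ∉ V j → N j ≤ μ i j) (u v : ι → ℕ)
    (huv : ∀ j, u j = 0 ∨ v j = 0) (hne : ∃ j, u j ≠ 0 ∨ v j ≠ 0)
    (hw : ∑ j, u j * N j = ∑ j, v j * N j)
    (h : ∀ i : Fin n, ∑ j, u j * μ i j = ∑ j, v j * μ i j) : False := by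
  have hle : ∀ (w : ι → ℕ) (i : Fin n), (∀ j, w j ≠ 0 → i ∉ V j) →
      ∑ j, w j * N j ≤ ∑ j, w j * μ i j := by
    intro w i hwi
    refine Finset.sum_le_sum fun j _ => ?_
    by_cases h0 : w j = 0
    · rw [h0, zero_mul, zero_mul]
    · exact Nat.mul_le_mul_left _ (hμ2 j i (hwi j h0))
  have hpos : 0 < ∑ j, u j * N j := by
    obtain ⟨j, hj⟩ := hne
    rcases hj with hj | hj
    · refine lt_of_lt_of_le (Nat.mul_pos (Nat.pos_of_ne_zero hj) (hN j))
        (Finset.single_le_sum (f := fun j => u j * N j) (fun _ _ => Nat.zero_le _) (Finset.mem_univ j))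
    · rw [hw]
      refine lt_of_lt_of_le (Nat.mul_pos (Nat.pos_of_ne_zero hj) (hN j))
        (Finset.single_le_sum (f := fun j => v j * N j) (fun _ _ => Nat.zero_le _) (Finset.mem_univ j))
  have hclaim : ∀ i : Fin n, ∑ j, u j * N j ≤ ∑ j, u j * μ i j := by
    intro i
    by_cases hA : ∀ j, u j ≠ 0 → i ∉ V j
    · exact hle u i hA
    · push Not at hA
      obtain ⟨l, hl, hil⟩ := hA
      rw [hw, h i]
      refine hle v i fun j hj hij => ?_
      have hjl : j ≠ l := by
        intro h1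
        rw [h1] at hj
        exact hj ((huv l).resolve_left hl)
      exact Finset.disjoint_left.mp (hV j l hjl) hij hil
  have h1 : n * ∑ j, u j * N j ≤ ∑ i : Fin n, ∑ j, u j * μ i j := by
    have h2 : ∑ _i : Fin n, ∑ j, u j * N j ≤ ∑ i : Fin n, ∑ j, u j * μ i j :=
      Finset.sum_le_sum fun i _ => hclaim i
    rw [Finset.sum_const, Finset.card_univ, Fintype.card_fin, smul_eq_mul] at h2
    exact h2
  have h2 : ∑ i : Fin n, ∑ j, u j * μ i j ≤ (n - 1) * ∑ j, u j * N j := by
    rw [Finset.sum_comm, Finset.mul_sum]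
    refine Finset.sum_le_sum fun j _ => ?_
    rw [← Finset.mul_sum]
    calc u j * ∑ i, μ i j ≤ u j * (N j * (n - 1)) := Nat.mul_le_mul_left _ (hμ1 j)
      _ = (n - 1) * (u j * N j) := by ring
  have h3 := h1.trans h2
  have h4 := Nat.le_of_mul_le_mul_right h3 hpos
  omega

theorem sep {R : Type*} [CommRing R] [IsDomain R] [CharZero R] {ι : Type*} [Fintype ι] {n : ℕ}
    (hn : 0 < n) (V : ι → Finset (Fin n)) (hV : ∀ j l, j ≠ l → Disjoint (V j) (V l)) (N : ι → ℕ)
    (hN : ∀ j, 0 < N j) (Q : ι → Polynomial R) (hQ0 : ∀ j, Q j ≠ 0)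
    (hQd : ∀ j, (Q j).natDegree ≤ N j * (n - 1))
    (hQ : ∀ j, ∀ i : Fin n, i ∉ V j → (X + C ((i : ℕ) : R)) ^ N j ∣ Q j)
    (s t : ι → ℕ) (hst : s ≠ t) (hw : ∑ j, s j * N j = ∑ j, t j * N j) :
    ∃ i : Fin n, ∑ j, s j * (Q j).rootMultiplicity (-((i : ℕ) : R)) ≠
      ∑ j, t j * (Q j).rootMultiplicity (-((i : ℕ) : R)) := by
  by_contra hcon
  push Not at hcon
  have hinj : Function.Injective (fun i : Fin n => (-((i : ℕ) : R))) := by
    intro i i' h
    have h1 : ((i : ℕ) : R) = ((i' : ℕ) : R) := neg_injective h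
    exact Fin.ext (Nat.cast_injective h1)
  refine Sep_core hn V hV N hN (fun i j => (Q j).rootMultiplicity (-((i : ℕ) : R)))
    (fun j => (Sep_sum_le (fun i : Fin n => (-((i : ℕ) : R))) hinj (Q j)).trans (hQd j)) ?_
    (fun j => s j - t j) (fun j => t j - s j) ?_ ?_ ?_ ?_
  · intro j i hi
    rw [Polynomial.le_rootMultiplicity_iff (hQ0 j), C_neg, sub_neg_eq_add]
    exact hQ j i hi
  · intro j
    omega
  · obtain ⟨j, hj⟩ := Function.ne_iff.mp hst
    exact ⟨j, by omega⟩
  · exact Sep_cancel s t N hw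
  · intro i
    exact Sep_cancel s t _ (hcon i)

end Pool.Agent.ROQ
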